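import Pool.Agent.Helper16.DIL.Spec

/-!
From the mean value estimate to the large values.
-/

set_option autoImplicit false

namespace Pool.Agent.Helper16.DIL.BND

open Finset Matrix MeasureTheory Pool.Agent.Helper68K9.SG Pool.Agent.Helper16.DIL

theorem main : S_BND := by
  intro N Y J _ t hY h
  have hf : ∀ (b : ℕ → ℂ) (j : J), ∑ n ∈ Icc 1 N, b n * (n : ℂ) ^ (-((t j : ℂ) * Complex.I)) =
      ∑ n ∈ Icc 1 N, b n * ph (t j) n := by
    intro b j
    refine sum_congr rfl fun n hn => ?_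
    rw [cpow_ph n (mem_Icc.1 hn).1]
  have hb : ∀ b : ℕ → ℂ, (∀ n, ‖b n‖ ≤ 1) → ∑ n ∈ Icc 1 N, ‖b n‖ ^ 2 ≤ N := by
    intro b hb
    refine (sum_le_sum (g := fun _ => (1 : ℝ)) fun n _ => ?_).trans (by simp)
    exact pow_le_one₀ (norm_nonneg _) (hb n)
  have hN0 : (0 : ℝ) ≤ N := Nat.cast_nonneg _
  have hR0 : (0 : ℝ) ≤ Fintype.card J := Nat.cast_nonneg _
  have hS : ∀ (b : ℕ → ℂ) (V : ℝ) (S : Finset J), (∀ n, ‖b n‖ ≤ 1) → 0 < V →
      (∀ j ∈ S, V ≤ ‖∑ n ∈ Icc 1 N, b n * (n : ℂ) ^ (-((t j : ℂ) * Complex.I))‖) →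
      (S.card : ℝ) * V ^ 2 ≤ Y * (N + Fintype.card J) * N := by
    intro b V S hb1 hV hj
    calc (S.card : ℝ) * V ^ 2 = ∑ j ∈ S, V ^ 2 := by rw [sum_const, nsmul_eq_mul]
      _ ≤ ∑ j ∈ S, ‖∑ n ∈ Icc 1 N, b n * ph (t j) n‖ ^ 2 := by
          refine sum_le_sum fun j hjS => ?_
          have h1 := hj j hjS
          rw [hf] at h1
          exact pow_le_pow_left₀ hV.le h1 2
      _ ≤ ∑ j, ‖∑ n ∈ Icc 1 N, b n * ph (t j) n‖ ^ 2 :=
          sum_le_sum_of_subset_of_nonneg (subset_univ _) fun _ _ _ => by positivity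
      _ ≤ (Y * (N + Fintype.card J)) * ∑ n ∈ Icc 1 N, ‖b n‖ ^ 2 := h b
      _ ≤ Y * (N + Fintype.card J) * N := mul_le_mul_of_nonneg_left (hb b hb1) (by positivity)
  refine ⟨fun b => ?_, fun b V hb1 hV hVN hj => ?_, fun hRN b V S hb1 hV hj => ?_⟩
  · rw [sum_congr rfl fun j _ => by rw [hf b j]]
    exact h b
  · have h1 := hS b V univ hb1 hV fun j _ => hj j
    rw [card_univ] at h1
    rw [le_div_iff₀ (by positivity)]
    nlinarith
  · have h1 := hS b V S hb1 hV hj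
    rw [le_div_iff₀ (by positivity)]
    have h2 : (Fintype.card J : ℝ) ≤ N := by exact_mod_cast hRN
    have h3 : Y * (N + Fintype.card J) * N ≤ Y * (N + N) * N := by gcongr
    linarith

end Pool.Agent.Helper16.DIL.BND
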