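import Pool.Graph.R_pool_sql_team_seeded_1e53cb71.Helper68K9.SG.Core

/-!
# Large values of Dirichlet polynomials at generic dilates of arbitrary sets of integers
(MP_a93a41_nt): statements of the parts

The matrix `MM N t` (`x`, `y` entry: `∑ n ≤ N, n ^ (-i (t x - t y))`), the unimodular numbers
`ph t n = n ^ (-i t)`, the squared Frobenius norm `fro`, `trace_MM`, `trace_fro`, `MM_herm`,
`mean_of_fro` are in the library folder `Helper68K9/SG` (files Tr, Exp, Fin, Core).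
-/

set_option autoImplicit false

namespace Pool.Agent.Helper16.DIL

open Finset Matrix MeasureTheory Pool.Agent.Helper68K9.SG

/-- The phase of a closed walk. -/
noncomputable def Phi {J : Type} (x : J → ℤ) {k : ℕ} (w : Fin (k + 1) → J)
    (n : Fin (k + 1) → ℕ) : ℝ :=
  ∑ i, ((x (w i) - x (w (i + 1)) : ℤ) : ℝ) * Real.log (n i)

/-- The exponents of `p` in the numbers `n i`. -/
def vp {k : ℕ} (n : Fin (k + 1) → ℕ) (p : ℕ) : Fin (k + 1) → ℚ :=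
  fun i => ((n i).factorization p : ℚ)

/-- The span of the vectors of exponents and of the constant vector. -/
def Wn {k : ℕ} (n : Fin (k + 1) → ℕ) : Submodule ℚ (Fin (k + 1) → ℚ) :=
  Submodule.span ℚ (insert (fun _ => 1) (Set.range (vp n)))

/-- C0: a subspace of dimension `m` is determined by `m` coordinates (induction on the dimension:
choose `u ≠ 0` in `U` and `i` with `u i ≠ 0`, pass to the subspace `u i = 0`). -/
def S_C0 : Prop :=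
  ∀ (K : ℕ) (U : Submodule ℚ (Fin K → ℚ)), ∃ I : Finset (Fin K),
    I.card = Module.finrank ℚ U ∧ ∀ u ∈ U, (∀ i ∈ I, u i = 0) → u = 0

/-- C1: `∏ n_i ^ d_i = 1` (in `ℝ`, then in `ℚ`), take the exponent of the prime `p`
(`padicValRat`; for `p` not prime the factorization is `0`). -/
def S_C1 : Prop :=
  ∀ (J : Type) (x : J → ℤ) (k : ℕ) (w : Fin (k + 1) → J) (n : Fin (k + 1) → ℕ), (∀ i, 1 ≤ n i) →
    Phi x w n = 0 → ∀ p : ℕ, ∑ i, ((x (w i) - x (w (i + 1)) : ℤ) : ℚ) * vp n p i = 0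

/-- C2 (hypothesis C0): for given `n` there are at most `R ^ (k + 2 - s)` walks `w`, where
`s = finrank (Wn n)`: the condition is `∑ i, X i * (v i - v (i - 1)) = 0` for all `v ∈ Wn n`,
`X i = x (w i)`; the vectors `v i - v (i - 1)` form a space of dimension `s - 1` (the kernel is spanned
by the constant vector, which is in `Wn n`), so the `X` form a space of dimension `k + 2 - s`. -/
def S_C2 : Prop :=
  ∀ (J : Type) [Fintype J] [DecidableEq J] (x : J → ℤ) (k : ℕ) (n : Fin (k + 1) → ℕ),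
    Function.Injective x →
    ({w : Fin (k + 1) → J |
      ∀ p : ℕ, ∑ i, ((x (w i) - x (w (i + 1)) : ℤ) : ℚ) * vp n p i = 0}.ncard) ≤
      Fintype.card J ^ (k + 2 - Module.finrank ℚ (Wn n))

/-- C3 (hypothesis C0): the number of the `n` with `finrank (Wn n) = s`.  `Wn n` is spanned by `s`
vectors with entries in `{0, ..., log₂ N}` (the constant vector `1` is one of them if `N ≥ 2`; the case
`N = 1` is trivial), so there are at most `(log₂ N + 1) ^ ((k + 1) s)` spaces; for a given space `W`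
choose `I` (C0): the `n i`, `i ∈ I`, determine `vp n p` for all `p`, hence `n`. -/
def S_C3 : Prop :=
  ∀ (k N s : ℕ), 1 ≤ N →
    ({n : Fin (k + 1) → ℕ | (∀ i, 1 ≤ n i ∧ n i ≤ N) ∧ Module.finrank ℚ (Wn n) = s}.ncard) ≤
      (Nat.log 2 N + 1) ^ ((k + 1) * (k + 1)) * N ^ s

/-- C4 (hypotheses C1, C2, C3): sum over `n`; `1 ≤ s ≤ k + 1`,
`N ^ s * R ^ (k + 2 - s) ≤ (N + R) ^ (k + 2)`. -/
def S_C4 : Prop :=
  ∀ (J : Type) [Fintype J] [DecidableEq J] (x : J → ℤ) (k N : ℕ), 1 ≤ N → Function.Injective x →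
    ({q : (Fin (k + 1) → J) × (Fin (k + 1) → ℕ) | (∀ i, 1 ≤ q.2 i ∧ q.2 i ≤ N) ∧
      Phi x q.1 q.2 = 0}.ncard) ≤
      (k + 1) * (Nat.log 2 N + 1) ^ ((k + 1) * (k + 1)) * (N + Fintype.card J) ^ (k + 2)

/-- GAP: `Phi = log P - log Q`, `P = ∏_{d_i > 0} n_i ^ d_i`, `Q = ∏_{d_i < 0} n_i ^ (-d_i)` natural
numbers, `P ≠ Q`, both at most `N ^ ((k + 1) D)`. -/
def S_GAP : Prop :=
  ∀ (J : Type) (x : J → ℤ) (D k N : ℕ) (w : Fin (k + 1) → J) (n : Fin (k + 1) → ℕ),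
    (∀ a b, |x a - x b| ≤ D) → (∀ i, 1 ≤ n i ∧ n i ≤ N) → Phi x w n ≠ 0 →
    1 / (N : ℝ) ^ ((k + 1) * D) ≤ |Phi x w n|

/-- OSC: the integral of an exponential. -/
def S_OSC : Prop :=
  ∀ (c f u L : ℝ), f ≠ 0 → 0 ≤ L →
    ‖∫ l in u..(u + L), Complex.exp ((-(c + l * f) : ℝ) * Complex.I)‖ ≤ 2 / |f|

/-- TRA (hypotheses C4, GAP, OSC): `fro (M ^ q) = trace (M ^ (2 q))` (`trace_fro`, `MM_herm`,
`2 * 2 ^ a = k + 1`), `trace_MM`, exchange of the finite sum and the integral; the terms with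
`Phi = 0` are bounded by `L`, the others by `2 N ^ ((k + 1) D)`. -/
def S_TRA : Prop :=
  ∀ (J : Type) [Fintype J] [DecidableEq J] (c : J → ℝ) (x : J → ℤ) (D N a : ℕ) (u L : ℝ),
    1 ≤ N → Function.Injective x → (∀ i j, |x i - x j| ≤ D) → 0 ≤ L →
    ∫ l in u..(u + L), fro ((MM N (fun j => c j + l * x j)) ^ (2 ^ a)) ≤
      L * ((2 ^ (a + 1) * (Nat.log 2 N + 1) ^ (2 ^ (a + 1) * 2 ^ (a + 1)) *
        (N + Fintype.card J) ^ (2 ^ (a + 1) + 1) : ℕ) : ℝ) +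
      ((Fintype.card J * N) ^ (2 ^ (a + 1)) : ℕ) * (2 * (N : ℝ) ^ (2 ^ (a + 1) * D))

/-- NUM: numerics (`a` large, then `C` and `E` large). -/
def S_NUM : Prop :=
  ∀ (ε A B : ℝ), 0 < ε → 0 ≤ A → 0 ≤ B → ∃ (a E : ℕ) (C : ℝ), 1 ≤ C ∧
    ∀ (N R D : ℕ) (L : ℝ), 1 ≤ N → 1 ≤ D → (R : ℝ) ≤ (N : ℝ) ^ B → (N : ℝ) ^ (E * D) ≤ L →
      L * ((2 ^ (a + 1) * (Nat.log 2 N + 1) ^ (2 ^ (a + 1) * 2 ^ (a + 1)) *
        (N + R) ^ (2 ^ (a + 1) + 1) : ℕ) : ℝ) +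
      ((R * N) ^ (2 ^ (a + 1)) : ℕ) * (2 * (N : ℝ) ^ (2 ^ (a + 1) * D)) ≤
      (N : ℝ) ^ (-A) * L * (C * (N : ℝ) ^ ε * (N + R)) ^ (2 ^ (a + 1))

/-- The mean value estimate for the points `t`, and its two consequences for the large values: the
bound of Q1 if `|D| ≥ V` at all the points, and the bound of Q1 for arbitrary subfamilies if there are
at most `N` points. -/
def Bounds (N : ℕ) (Y : ℝ) {J : Type} [Fintype J] (t : J → ℝ) : Prop :=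
  (∀ b : ℕ → ℂ, ∑ j, ‖∑ n ∈ Icc 1 N, b n * (n : ℂ) ^ (-((t j : ℂ) * Complex.I))‖ ^ 2 ≤
    Y * (N + Fintype.card J) * ∑ n ∈ Icc 1 N, ‖b n‖ ^ 2) ∧
  (∀ (b : ℕ → ℂ) (V : ℝ), (∀ n, ‖b n‖ ≤ 1) → 0 < V → 2 * Y * N ≤ V ^ 2 →
    (∀ j, V ≤ ‖∑ n ∈ Icc 1 N, b n * (n : ℂ) ^ (-((t j : ℂ) * Complex.I))‖) →
    (Fintype.card J : ℝ) ≤ 2 * Y * N ^ 2 / V ^ 2) ∧
  (Fintype.card J ≤ N → ∀ (b : ℕ → ℂ) (V : ℝ) (S : Finset J), (∀ n, ‖b n‖ ≤ 1) → 0 < V →
    (∀ j ∈ S, V ≤ ‖∑ n ∈ Icc 1 N, b n * (n : ℂ) ^ (-((t j : ℂ) * Complex.I))‖) →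
    (S.card : ℝ) ≤ 2 * Y * N ^ 2 / V ^ 2)

/-- BND: from the mean value estimate to the large values (`cpow_ph` for the first form). -/
def S_BND : Prop :=
  ∀ (N : ℕ) (Y : ℝ) (J : Type) [Fintype J] (t : J → ℝ), 0 < Y →
    (∀ b : ℕ → ℂ, ∑ j, ‖∑ n ∈ Icc 1 N, b n * ph (t j) n‖ ^ 2 ≤
      (Y * (N + Fintype.card J)) * ∑ n ∈ Icc 1 N, ‖b n‖ ^ 2) → Bounds N Y t

/-- FIN (hypotheses TRA, NUM, BND): Markov's inequality (the integrand is continuous and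
nonnegative) and `mean_of_fro`. -/
def S_FIN : Prop :=
  ∀ (ε A B : ℝ), 0 < ε → 0 ≤ A → 0 ≤ B → ∃ (C : ℝ) (E : ℕ), 0 < C ∧
    ∀ (N R D : ℕ) (c : Fin R → ℝ) (x : Fin R → ℤ) (u L : ℝ), 1 ≤ N → 1 ≤ D →
      (R : ℝ) ≤ (N : ℝ) ^ B → Function.Injective x → (∀ i j, |x i - x j| ≤ D) →
      (N : ℝ) ^ (E * D) ≤ L →
      volume {l : ℝ | u ≤ l ∧ l ≤ u + L ∧ ¬ Bounds N (C * (N : ℝ) ^ ε) (fun j => c j + l * x j)} ≤
        ENNReal.ofReal ((N : ℝ) ^ (-A) * L)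

end Pool.Agent.Helper16.DIL
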