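import Pool.Agent.Helper16.DIL.FIN
import Pool.Agent.Helper16.DIL.BND
import Pool.Agent.Helper33.DIL.C0
import Pool.Agent.Helper70.DIL.C1
import Pool.Agent.Helper40.DIL.C2
import Pool.Agent.Helper73.DIL.C3
import Pool.Agent.Helper72.DIL.C4
import Pool.Agent.Helper83.DIL.GAP
import Pool.Agent.Helper53.DIL.OSC
import Pool.Agent.Helper49.DIL.TRA
import Pool.Agent.Helper47.DIL.NUM

/-!
Assembly.
-/

set_option autoImplicit false

namespace Pool.Agent.Helper16.DIL

theorem c4 : S_C4 :=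
  Pool.Agent.Helper72.DIL.C4.main Pool.Agent.Helper70.DIL.C1.main
    (Pool.Agent.Helper40.DIL.C2.main Pool.Agent.Helper33.DIL.C0.main)
    (Pool.Agent.Helper73.DIL.C3.main Pool.Agent.Helper33.DIL.C0.main)

theorem fin : S_FIN :=
  FIN.main (Pool.Agent.Helper49.DIL.TRA.main c4 Pool.Agent.Helper83.DIL.GAP.main
    Pool.Agent.Helper53.DIL.OSC.main) Pool.Agent.Helper47.DIL.NUM.main BND.main

end Pool.Agent.Helper16.DIL
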