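import Pool.Agent.Helper16.DIL.Spec

/-!
Markov's inequality for the trace.
-/

set_option autoImplicit false

namespace Pool.Agent.Helper16.DIL.FIN

open Finset Matrix MeasureTheory Pool.Agent.Helper68K9.SG Pool.Agent.Helper16.DIL

theorem cont_G {J : Type} [Fintype J] [DecidableEq J] (N a : ℕ) (c : J → ℝ) (x : J → ℤ) :
    Continuous fun l : ℝ => fro ((MM N (fun j => c j + l * x j)) ^ (2 ^ a)) := by
  have hp : ∀ j, Continuous fun l : ℝ => c j + l * (x j : ℝ) := fun j =>
    continuous_const.add (continuous_id.mul continuous_const)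
  have hc : Continuous fun l : ℝ => MM N (fun j => c j + l * (x j : ℝ)) := by
    refine continuous_matrix fun y z => ?_
    unfold MM ph
    refine continuous_finset_sum _ fun n _ => ?_
    refine Continuous.mul ?_ (Complex.continuous_conj.comp ?_)
    · exact Complex.continuous_exp.comp ((Complex.continuous_ofReal.comp
        (((hp y).mul continuous_const).neg)).mul continuous_const)
    · exact Complex.continuous_exp.comp ((Complex.continuous_ofReal.comp
        (((hp z).mul continuous_const).neg)).mul continuous_const)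
  have hc2 : Continuous fun l : ℝ => (MM N (fun j => c j + l * (x j : ℝ))) ^ (2 ^ a) := hc.pow _
  unfold fro
  refine continuous_finset_sum _ fun x _ => continuous_finset_sum _ fun y _ => ?_
  exact ((hc2.matrix_elem x y).norm).pow 2

theorem main (hTRA : S_TRA) (hNUM : S_NUM) (hBND : S_BND) : S_FIN := by
  intro ε A B hε hA hB
  obtain ⟨a, E, C, hC1, hnum⟩ := hNUM ε A B hε hA hB
  have hC : 0 < C := by linarith
  refine ⟨C, E, hC, fun N R D c x u L hN hD hR hx hd hL => ?_⟩
  have hN0 : (0 : ℝ) < N := by exact_mod_cast hN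
  have hL0 : 0 ≤ L := le_trans (by positivity) hL
  have hY0 : 0 < C * (N : ℝ) ^ ε := by positivity
  set G : ℝ → ℝ := fun l => fro ((MM N (fun j => c j + l * (x j : ℝ))) ^ (2 ^ a)) with hG
  have hGc : Continuous G := cont_G N a c x
  set Y : ℝ := C * (N : ℝ) ^ ε * (N + R) with hY
  have hYpos : 0 < Y := by positivity
  set μ : Measure ℝ := volume.restrict (Set.Icc u (u + L)) with hμ
  have hint : Integrable G μ := hGc.integrableOn_Icc
  have hI : ∫ l, G l ∂μ = ∫ l in u..(u + L), G l := by
    rw [intervalIntegral.integral_of_le (by linarith), hμ, integral_Icc_eq_integral_Ioc]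
  have h1 := mul_meas_ge_le_integral_of_nonneg (μ := μ) (f := G)
    (Filter.Eventually.of_forall fun l => fro_nonneg _) hint (Y ^ (2 ^ (a + 1)))
  have h2 : ∫ l, G l ∂μ ≤ (N : ℝ) ^ (-A) * L * Y ^ (2 ^ (a + 1)) := by
    rw [hI]
    have h3 := hTRA (Fin R) c x D N a u L hN hx hd hL0
    rw [Fintype.card_fin] at h3
    exact h3.trans (hnum N R D L hN hD hR hL)
  have hYK : 0 < Y ^ (2 ^ (a + 1)) := pow_pos hYpos _
  have h3 : μ.real {l | Y ^ (2 ^ (a + 1)) ≤ G l} ≤ (N : ℝ) ^ (-A) * L := by
    have h4 := h1.trans h2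
    rw [mul_comm] at h4
    exact le_of_mul_le_mul_right h4 hYK
  have hsub : {l : ℝ | u ≤ l ∧ l ≤ u + L ∧
      ¬ Bounds N (C * (N : ℝ) ^ ε) (fun j => c j + l * (x j : ℝ))} ⊆
      {l | Y ^ (2 ^ (a + 1)) ≤ G l} ∩ Set.Icc u (u + L) := by
    rintro l ⟨hl1, hl2, hl3⟩
    refine ⟨?_, hl1, hl2⟩
    by_contra hcon
    rw [Set.mem_setOf_eq, not_le] at hcon
    apply hl3
    refine hBND N (C * (N : ℝ) ^ ε) (Fin R) _ hY0 fun b => ?_
    rw [Fintype.card_fin]
    exact mean_of_fro _ Y hYpos.le hcon.le b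
  refine (measure_mono hsub).trans ?_
  have hS : MeasurableSet {l | Y ^ (2 ^ (a + 1)) ≤ G l} :=
    (isClosed_le continuous_const hGc).measurableSet
  rw [← Measure.restrict_apply hS, ← ENNReal.ofReal_toReal (measure_ne_top μ _)]
  exact ENNReal.ofReal_le_ofReal h3

end Pool.Agent.Helper16.DIL.FIN
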